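import Mathlib
import Pool.Agent.Lib.MP_63e314_pr.Infinite

set_option autoImplicit false

open MeasureTheory

namespace Pool.Agent.Results.MP_63e314_pr.ManyWitnessSets

/-- The space `Ω = [0,1]^ℕ`. -/
abbrev Omega : Type := ℕ → unitInterval

/-- The product `m` of the uniform (Lebesgue) measures on `[0,1]`. -/
noncomputable def m : Measure Omega :=
  Measure.infinitePi fun _ : ℕ => (volume : Measure unitInterval)

/-- `A` is a Borel subset of `Ω` (for the product topology). -/
def IsBorel (A : Set Omega) : Prop := MeasurableSet[borel Omega] A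

/-- The outer measure `m*(A)`: the infimum of `m(B)` over the Borel sets `B ⊇ A`. -/
noncomputable def outer (A : Set Omega) : ENNReal :=
  sInf {x : ENNReal | ∃ B : Set Omega, IsBorel B ∧ A ⊆ B ∧ m B = x}

/-- `Cyl(K, ω)`: the points that agree with `ω` on `K`. -/
def Cyl (K : Set ℕ) (ω : Omega) : Set Omega := {η | ∀ i ∈ K, η i = ω i}

/-- `[A]_K`: the points `ω` with `Cyl(K, ω) ⊆ A`. -/
def bracket (A : Set Omega) (K : Set ℕ) : Set Omega := {ω | Cyl K ω ⊆ A}

/-- `A ⊠_{=∞} B`: the union of `[A]_J ∩ [B]_K` over all disjoint `J, K ⊆ ℕ`, finite or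
infinite. -/
def box (A B : Set Omega) : Set Omega :=
  {ω | ∃ J K : Set ℕ, J ∩ K = ∅ ∧ ω ∈ bracket A J ∩ bracket B K}

/-- The `r`-fold operator: the points `ω` for which there are pairwise disjoint sets
`J 0, …, J (r-1) ⊆ ℕ`, finite or infinite, with `ω ∈ [A i]_(J i)` for all `i`. -/
def boxes {r : ℕ} (A : Fin r → Set Omega) : Set Omega :=
  {ω | ∃ J : Fin r → Set ℕ, (∀ i j, i ≠ j → J i ∩ J j = ∅) ∧ ∀ i, ω ∈ bracket (A i) (J i)}

theorem isBorel_iff (A : Set Omega) : IsBorel A ↔ MeasurableSet A := by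
  unfold IsBorel
  rw [← BorelSpace.measurable_eq (α := Omega)]

theorem outer_eq (A : Set Omega) : outer A = m A := by
  apply le_antisymm
  · apply sInf_le
    exact ⟨toMeasurable m A, (isBorel_iff _).2 (measurableSet_toMeasurable m A),
      subset_toMeasurable m A, measure_toMeasurable A⟩
  · apply le_sInf
    rintro x ⟨B, _, hAB, rfl⟩
    exact measure_mono hAB

/-- The `r`-fold inequality for Mathlib's measure of arbitrary sets. -/
theorem rfold : ∀ (r : ℕ) (A : Fin r → Set Omega),
    ∃ C : Set Omega, MeasurableSet C ∧ boxes A ⊆ C ∧ m C ≤ ∏ i, m (A i) := by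
  intro r
  induction r with
  | zero =>
      intro A
      refine ⟨Set.univ, MeasurableSet.univ, Set.subset_univ _, ?_⟩
      have : m Set.univ ≤ 1 := by
        unfold m
        exact prob_le_one
      simpa using this
  | succ r ih =>
      intro A
      obtain ⟨C', hC'm, hC'sub, hC'le⟩ := ih fun i => A i.succ
      obtain ⟨C, hCm, hCsub, hCle⟩ :=
        Pool.Agent.Lib.MP_63e314_pr.bkr_inf (A 0) (boxes fun i => A i.succ)
      refine ⟨C, hCm, ?_, ?_⟩
      · rintro ω ⟨J, hJ, hω⟩
        apply hCsub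
        refine ⟨J 0, ⋃ i : Fin r, J i.succ, ?_, ?_, ?_⟩
        · rw [Set.disjoint_iUnion_right]
          intro i
          rw [Set.disjoint_iff_inter_eq_empty]
          exact hJ 0 i.succ (Fin.succ_ne_zero i).symm
        · intro η hη
          exact hω 0 hη
        · intro η hη
          refine ⟨fun i => J i.succ, fun i j hij => hJ _ _ fun h => hij (Fin.succ_injective _ h),
            fun i => ?_⟩
          intro ζ hζ
          apply hω i.succ
          intro k hk
          rw [hζ k hk]
          exact hη k (Set.mem_iUnion.2 ⟨i, hk⟩)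
      · rw [Fin.prod_univ_succ]
        refine le_trans hCle ?_
        exact mul_le_mul' le_rfl ((measure_mono hC'sub).trans hC'le)

/-- The van den Berg - Kesten - Reimer inequality on `[0,1]^ℕ` for arbitrary (finite or infinite)
witness sets.  For Borel `A`, `B` there is a Borel `C` with `A ⊠_{=∞} B ⊆ C` and
`m(C) ≤ m(A) m(B)`; and for every `r` and arbitrary sets `A_1, …, A_r`, Borel or not, there is a
Borel `C` which contains the `r`-fold box of the `A_i` and has `m(C) ≤ m*(A_1) ⋯ m*(A_r)`. -/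
theorem result :
    (∀ A B : Set Omega, IsBorel A → IsBorel B →
      ∃ C : Set Omega, IsBorel C ∧ box A B ⊆ C ∧ m C ≤ m A * m B) ∧
    (∀ (r : ℕ) (A : Fin r → Set Omega),
      ∃ C : Set Omega, IsBorel C ∧ boxes A ⊆ C ∧ m C ≤ ∏ i, outer (A i)) := by
  refine ⟨?_, ?_⟩
  · intro A B _ _
    obtain ⟨C, hCm, hCsub, hCle⟩ := Pool.Agent.Lib.MP_63e314_pr.bkr_inf A B
    refine ⟨C, (isBorel_iff C).2 hCm, ?_, hCle⟩
    rintro ω ⟨J, K, hJK, hJ, hK⟩
    exact hCsub ⟨J, K, Set.disjoint_iff_inter_eq_empty.2 hJK, fun η hη => hJ hη,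
      fun η hη => hK hη⟩
  · intro r A
    obtain ⟨C, hCm, hCsub, hCle⟩ := rfold r A
    refine ⟨C, (isBorel_iff C).2 hCm, hCsub, ?_⟩
    simpa only [outer_eq] using hCle

end Pool.Agent.Results.MP_63e314_pr.ManyWitnessSets
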